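import Pool.Agent.H93.EA.Rot

/-!
# H25.RS.Dd: the number of points whose side of the halving line differs at two times
-/

set_option autoImplicit false

namespace Pool.Agent.H25.RS

open Finset Pool.Agent.H93.EA

variable {α : Type} [Fintype α]

/-- The number of the points whose side (first `m` positions or not) differs at the times `s` and `t`. -/
def Dd (ρ : ℕ → α → ℕ) (m s t : ℕ) : ℕ := (univ.filter fun a => ¬(ρ s a < m ↔ ρ t a < m)).card

theorem Dd_symm (ρ : ℕ → α → ℕ) (m s t : ℕ) : Dd ρ m s t = Dd ρ m t s := by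
  unfold Dd
  congr 1
  ext a
  simp only [mem_filter, mem_univ, true_and]
  exact not_congr Iff.comm

theorem Dd_self (ρ : ℕ → α → ℕ) (m s : ℕ) : Dd ρ m s s = 0 := by
  unfold Dd
  rw [card_eq_zero, filter_eq_empty_iff]
  intro a _ h
  exact h Iff.rfl

theorem Dd_tri (ρ : ℕ → α → ℕ) (m s t u : ℕ) : Dd ρ m s u ≤ Dd ρ m s t + Dd ρ m t u := by
  classical
  unfold Dd
  refine (card_le_card ?_).trans (card_union_le _ _)
  intro a ha
  simp only [mem_union, mem_filter, mem_univ, true_and] at ha ⊢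
  by_contra hc
  push Not at hc
  exact ha (hc.1.trans hc.2)

variable {N : ℕ} {ρ : ℕ → α → ℕ}

theorem Dd_eq [DecidableEq α] (h : ASeq N ρ) {m : ℕ} (hm : m ≤ Fintype.card α) {s t : ℕ}
    (hs : s ≤ N) (ht : t ≤ N) : Dd ρ m s t = 2 * (pre ρ s m \ pre ρ t m).card := by
  have e : (univ.filter fun a => ¬(ρ s a < m ↔ ρ t a < m)) =
      (pre ρ s m \ pre ρ t m) ∪ (pre ρ t m \ pre ρ s m) := by
    ext a
    simp only [mem_filter, mem_univ, true_and, mem_union, mem_sdiff, mem_pre]
    tauto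
  have hd : Disjoint (pre ρ s m \ pre ρ t m) (pre ρ t m \ pre ρ s m) := by
    rw [disjoint_left]
    intro a ha hb
    exact (mem_sdiff.1 ha).2 (mem_sdiff.1 hb).1
  have h1 := card_pre h hs hm
  have h2 := card_pre h ht hm
  have h3 : (pre ρ s m \ pre ρ t m).card = (pre ρ t m \ pre ρ s m).card :=
    card_sdiff_comm (h1.trans h2.symm)
  unfold Dd
  rw [e, card_union_of_disjoint hd]
  omega

/-- A step changes the side of at most two points. -/
theorem Dd_one (h : ASeq N ρ) {m : ℕ} (hm : m ≤ Fintype.card α) {t : ℕ} (ht : t < N) :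
    Dd ρ m t (t + 1) ≤ 2 := by
  classical
  rw [Dd_eq h hm ht.le ht]
  rcases exch h ht hm with he | ⟨a, b, ha, hb, hb', ha', he⟩
  · rw [he, sdiff_self]
    simp
  · rw [he]
    have h1 : pre ρ t m \ insert b ((pre ρ t m).erase a) ⊆ {a} := by
      intro x hx
      rw [mem_sdiff, mem_insert, mem_erase] at hx
      rw [mem_singleton]
      by_contra hc
      exact hx.2 (Or.inr ⟨hc, hx.1⟩)
    have h2 := card_le_card h1
    rw [card_singleton] at h2
    omega

theorem Dd_step (h : ASeq N ρ) {m : ℕ} (hm : m ≤ Fintype.card α) (s : ℕ) {t : ℕ} (ht : t < N) :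
    Dd ρ m s (t + 1) ≤ Dd ρ m s t + 2 :=
  (Dd_tri ρ m s t (t + 1)).trans (Nat.add_le_add_left (Dd_one h hm ht) _)

theorem Dd_step' (h : ASeq N ρ) {m : ℕ} (hm : m ≤ Fintype.card α) (s : ℕ) {t : ℕ} (ht : t < N) :
    Dd ρ m s t ≤ Dd ρ m s (t + 1) + 2 :=
  (Dd_tri ρ m s (t + 1) t).trans
    (Nat.add_le_add_left ((Dd_symm ρ m (t + 1) t).le.trans (Dd_one h hm ht)) _)

theorem Dd_stepl (h : ASeq N ρ) {m : ℕ} (hm : m ≤ Fintype.card α) {s : ℕ} (hs : s < N) (t : ℕ) :
    Dd ρ m (s + 1) t ≤ Dd ρ m s t + 2 := by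
  rw [Dd_symm ρ m (s + 1) t, Dd_symm ρ m s t]
  exact Dd_step h hm t hs

theorem Dd_stepl' (h : ASeq N ρ) {m : ℕ} (hm : m ≤ Fintype.card α) {s : ℕ} (hs : s < N) (t : ℕ) :
    Dd ρ m s t ≤ Dd ρ m (s + 1) t + 2 := by
  rw [Dd_symm ρ m (s + 1) t, Dd_symm ρ m s t]
  exact Dd_step' h hm t hs

/-- Times at distance `≤ k` differ by at most `2 k`. -/
theorem Dd_near (h : ASeq N ρ) {m : ℕ} (hm : m ≤ Fintype.card α) {s t k : ℕ} (hst : s ≤ t)
    (hk : t ≤ s + k) (ht : t ≤ N) : Dd ρ m s t ≤ 2 * k := by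
  obtain ⟨d, rfl⟩ := Nat.exists_eq_add_of_le hst
  have key : ∀ d, s + d ≤ N → Dd ρ m s (s + d) ≤ 2 * d := by
    intro d
    induction d with
    | zero => intro _; rw [add_zero, Dd_self]
    | succ d ih =>
      intro hd
      have h1 := ih (by omega)
      have h2 := Dd_step h hm s (t := s + d) (by omega)
      rw [← add_assoc]
      omega
  have := key d ht
  omega

theorem Dd_full (h : ASeq N ρ) {m : ℕ} (hm : Fintype.card α = 2 * m) :
    Dd ρ m 0 N = Fintype.card α := by
  classical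
  unfold Dd
  rw [← card_univ]
  congr 1
  rw [filter_eq_self]
  intro a _
  have := rev h a
  omega

theorem Dd_mono_right (h : ASeq N ρ) {m : ℕ} (hm : m ≤ Fintype.card α) {s t' t : ℕ}
    (h1 : s ≤ t') (h2 : t' ≤ t) (ht : t ≤ N) : Dd ρ m s t' ≤ Dd ρ m s t := by
  classical
  rw [Dd_eq h hm (by omega) (by omega), Dd_eq h hm (by omega) ht]
  have hr := rot h (s := s) (by omega)
  have h3 := swept_mono hr hm (s := t' - s) (t := t - s) (by omega) (by omega)
  have e : ∀ u, s ≤ u → u ≤ N → pre (fun t a => ext N ρ (s + t) a) (u - s) m = pre ρ u m := by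
    intro u hu hu'
    ext a
    rw [mem_pre, mem_pre]
    have e1 : s + (u - s) = u := by omega
    rw [e1, ext_le hu']
  have e0 := e s le_rfl (by omega)
  rw [Nat.sub_self] at e0
  rw [e0, e t' h1 (by omega), e t (by omega) ht] at h3
  omega

theorem Dd_mono_left (h : ASeq N ρ) {m : ℕ} (hm : Fintype.card α = 2 * m) {s s' t : ℕ}
    (h1 : s ≤ s') (h2 : s' ≤ t) (ht : t ≤ N) : Dd ρ m s' t ≤ Dd ρ m s t := by
  classical
  have hm' : m ≤ Fintype.card α := by omega
  rw [Dd_symm ρ m s' t, Dd_symm ρ m s t, Dd_eq h hm' ht (by omega), Dd_eq h hm' ht (by omega)]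
  have hr := rot h (s := t) ht
  have h3 := swept_mono hr hm' (s := N - t + s) (t := N - t + s') (by omega) (by omega)
  have e : ∀ u, u ≤ t → pre (fun v a => ext N ρ (t + v) a) (N - t + u) m = (pre ρ u m)ᶜ := by
    intro u hu
    ext a
    rw [mem_compl, mem_pre, mem_pre]
    have e1 : t + (N - t + u) = u + N := by omega
    have h4 := h.lt_card u (by omega) a
    rw [e1, ext_add h u a (by omega)]
    omega
  have e0 : pre (fun v a => ext N ρ (t + v) a) 0 m = pre ρ t m := by
    ext a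
    rw [mem_pre, mem_pre, add_zero, ext_le ht]
  rw [e0, e s (by omega), e s' (by omega)] at h3
  have k : ∀ u, (pre ρ t m \ pre ρ u m).card + (pre ρ t m \ (pre ρ u m)ᶜ).card = (pre ρ t m).card := by
    intro u
    rw [sdiff_compl, inf_eq_inter, card_sdiff_add_card_inter]
  have k1 := k s
  have k2 := k s'
  omega

/-- The swept sets grow with the time interval. -/
theorem Dd_mono (h : ASeq N ρ) {m : ℕ} (hm : Fintype.card α = 2 * m) {s s' t' t : ℕ}
    (h1 : s ≤ s') (h2 : s' ≤ t') (h3 : t' ≤ t) (ht : t ≤ N) : Dd ρ m s' t' ≤ Dd ρ m s t :=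
  (Dd_mono_left h hm h1 h2 (by omega)).trans (Dd_mono_right h (by omega) (by omega) h3 ht)

/-- The complementary interval: `D (s, t)` and the points on the same side at both times. -/
theorem Dd_compl (ρ : ℕ → α → ℕ) (m s t : ℕ) :
    Dd ρ m s t + (univ.filter fun a => (ρ s a < m ↔ ρ t a < m)).card = Fintype.card α := by
  unfold Dd
  rw [add_comm, card_filter_add_card_filter_not, card_univ]

end Pool.Agent.H25.RS
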